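import Mathlib

/-! A branch and bound checker for the inequality `2 * area ≤ K * perimeter` for triangles whose
vertices lie on three given segments. -/

namespace Pool.Agent.MP_cd4638_co.H97

/-- An upper estimate of the length of an integer vector. -/
def len (dx dy : ℤ) : ℤ :=
  let a := dx.natAbs
  let b := dy.natAbs
  let m := a * a + b * b
  let x0 := a + b + 1
  let x1 := (x0 + m / x0) / 2 + 1
  let x2 := (x1 + m / x1) / 2 + 1
  let x3 := (x2 + m / x2) / 2 + 1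
  Int.ofNat x3

/-- The linearised inequality at one triple of points. -/
def phi (K T p1 q1 p2 q2 p3 q3 ax ay bx bz cx cy : ℤ) : Bool :=
  decide (T * ((bx - ax) * (cy - ay) - (bz - ay) * (cx - ax)) ≤
    K * (p1 * (bx - ax) + q1 * (bz - ay) + p2 * (cx - bx) + q2 * (cy - bz) + p3 * (ax - cx)
      + q3 * (ay - cy)))

/-- The linearised inequality at the eight triples of end points. -/
def test8 (K T p1 q1 p2 q2 p3 q3 ax ay ax' ay' bx bz bx' bz' cx cy cx' cy' : ℤ) : Bool :=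
  phi K T p1 q1 p2 q2 p3 q3 ax ay bx bz cx cy && phi K T p1 q1 p2 q2 p3 q3 ax ay bx bz cx' cy' &&
  phi K T p1 q1 p2 q2 p3 q3 ax ay bx' bz' cx cy &&
  phi K T p1 q1 p2 q2 p3 q3 ax ay bx' bz' cx' cy' &&
  phi K T p1 q1 p2 q2 p3 q3 ax' ay' bx bz cx cy &&
  phi K T p1 q1 p2 q2 p3 q3 ax' ay' bx bz cx' cy' &&
  phi K T p1 q1 p2 q2 p3 q3 ax' ay' bx' bz' cx cy &&
  phi K T p1 q1 p2 q2 p3 q3 ax' ay' bx' bz' cx' cy' &&
  decide (p1 * p1 + q1 * q1 ≤ T * T) && decide (p2 * p2 + q2 * q2 ≤ T * T) &&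
  decide (p3 * p3 + q3 * q3 ≤ T * T)

/-- The test for one triple of segments. -/
def test (K T ax ay ax' ay' bx bz bx' bz' cx cy cx' cy' : ℤ) : Bool :=
  let d1 := bx + bx' - ax - ax'
  let e1 := bz + bz' - ay - ay'
  let d2 := cx + cx' - bx - bx'
  let e2 := cy + cy' - bz - bz'
  let d3 := ax + ax' - cx - cx'
  let e3 := ay + ay' - cy - cy'
  let l1 := len d1 e1
  let l2 := len d2 e2
  let l3 := len d3 e3
  test8 K T (Int.tdiv (d1 * T) l1) (Int.tdiv (e1 * T) l1) (Int.tdiv (d2 * T) l2)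
    (Int.tdiv (e2 * T) l2) (Int.tdiv (d3 * T) l3) (Int.tdiv (e3 * T) l3)
    ax ay ax' ay' bx bz bx' bz' cx cy cx' cy'

/-- The size of a segment. -/
def sz (x y x' y' : ℤ) : ℕ := (x - x').natAbs + (y - y').natAbs

/-- Branch and bound. -/
def chk (K T : ℤ) : ℕ → ℤ → ℤ → ℤ → ℤ → ℤ → ℤ → ℤ → ℤ → ℤ → ℤ → ℤ → ℤ → Bool
  | 0, ax, ay, ax', ay', bx, bz, bx', bz', cx, cy, cx', cy' =>
    test K T ax ay ax' ay' bx bz bx' bz' cx cy cx' cy'
  | d + 1, ax, ay, ax', ay', bx, bz, bx', bz', cx, cy, cx', cy' =>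
    test K T ax ay ax' ay' bx bz bx' bz' cx cy cx' cy' ||
      (bif Nat.blt (sz ax ay ax' ay') (sz bx bz bx' bz') || Nat.blt (sz ax ay ax' ay') (sz cx cy cx' cy')
        then
          (bif Nat.blt (sz bx bz bx' bz') (sz cx cy cx' cy') then
            (decide (2 * Int.tdiv (cx + cx') 2 = cx + cx') &&
              decide (2 * Int.tdiv (cy + cy') 2 = cy + cy') &&
              chk K T d ax ay ax' ay' bx bz bx' bz' cx cy (Int.tdiv (cx + cx') 2)
                (Int.tdiv (cy + cy') 2) &&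
              chk K T d ax ay ax' ay' bx bz bx' bz' (Int.tdiv (cx + cx') 2)
                (Int.tdiv (cy + cy') 2) cx' cy')
          else
            (decide (2 * Int.tdiv (bx + bx') 2 = bx + bx') &&
              decide (2 * Int.tdiv (bz + bz') 2 = bz + bz') &&
              chk K T d ax ay ax' ay' bx bz (Int.tdiv (bx + bx') 2)
                (Int.tdiv (bz + bz') 2) cx cy cx' cy' &&
              chk K T d ax ay ax' ay' (Int.tdiv (bx + bx') 2)
                (Int.tdiv (bz + bz') 2) bx' bz' cx cy cx' cy'))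
        else
          (decide (2 * Int.tdiv (ax + ax') 2 = ax + ax') &&
            decide (2 * Int.tdiv (ay + ay') 2 = ay + ay') &&
            chk K T d ax ay (Int.tdiv (ax + ax') 2) (Int.tdiv (ay + ay') 2)
              bx bz bx' bz' cx cy cx' cy' &&
            chk K T d (Int.tdiv (ax + ax') 2) (Int.tdiv (ay + ay') 2) ax' ay'
              bx bz bx' bz' cx cy cx' cy'))

/-- Twice the signed area is at most `K` times the perimeter. -/
def G (K ax ay bx bz cx cy : ℝ) : Prop :=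
  (bx - ax) * (cy - ay) - (bz - ay) * (cx - ax) ≤
    K * (√((bx - ax) ^ 2 + (bz - ay) ^ 2) + √((cx - bx) ^ 2 + (cy - bz) ^ 2)
      + √((ax - cx) ^ 2 + (ay - cy) ^ 2))

/-- The point `(u, v)` lies on the segment from `(x, y)` to `(x', y')`. -/
def Seg (x y x' y' : ℤ) (u v : ℝ) : Prop :=
  ∃ s : ℝ, 0 ≤ s ∧ s ≤ 1 ∧ u = x + s * (x' - x) ∧ v = y + s * (y' - y)

/-- The inequality holds on a product of three segments. -/
def Good (K ax ay ax' ay' bx bz bx' bz' cx cy cx' cy' : ℤ) : Prop :=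
  ∀ u1 v1 u2 v2 u3 v3 : ℝ, Seg ax ay ax' ay' u1 v1 → Seg bx bz bx' bz' u2 v2 →
    Seg cx cy cx' cy' u3 v3 → G K u1 v1 u2 v2 u3 v3

/-- The real form of the linearised inequality. -/
def psi (K T p1 q1 p2 q2 p3 q3 ax ay bx bz cx cy : ℝ) : ℝ :=
  K * (p1 * (bx - ax) + q1 * (bz - ay) + p2 * (cx - bx) + q2 * (cy - bz) + p3 * (ax - cx)
      + q3 * (ay - cy)) - T * ((bx - ax) * (cy - ay) - (bz - ay) * (cx - ax))

theorem phi_psi {K T p1 q1 p2 q2 p3 q3 ax ay bx bz cx cy : ℤ}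
    (h : phi K T p1 q1 p2 q2 p3 q3 ax ay bx bz cx cy = true) :
    0 ≤ psi K T p1 q1 p2 q2 p3 q3 ax ay bx bz cx cy := by
  unfold phi at h
  rw [decide_eq_true_eq] at h
  unfold psi
  have h' := (Int.cast_le (R := ℝ)).2 h
  push_cast at h'
  linarith

theorem interp {a b s : ℝ} (ha : 0 ≤ a) (hb : 0 ≤ b) (h0 : 0 ≤ s) (h1 : s ≤ 1) :
    0 ≤ (1 - s) * a + s * b := by
  have : 0 ≤ 1 - s := by linarith
  positivity

theorem lin_le {p q T x y : ℝ} (hT : 0 ≤ T) (h : p * p + q * q ≤ T * T) :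
    p * x + q * y ≤ T * √(x ^ 2 + y ^ 2) := by
  have h1 : T * √(x ^ 2 + y ^ 2) = √(T ^ 2 * (x ^ 2 + y ^ 2)) := by
    rw [Real.sqrt_mul (sq_nonneg T), Real.sqrt_sq hT]
  rw [h1]
  apply Real.le_sqrt_of_sq_le
  nlinarith [sq_nonneg (p * y - q * x), sq_nonneg x, sq_nonneg y,
    mul_le_mul_of_nonneg_right h (add_nonneg (sq_nonneg x) (sq_nonneg y))]

theorem test8_good {K T p1 q1 p2 q2 p3 q3 ax ay ax' ay' bx bz bx' bz' cx cy cx' cy' : ℤ}
    (hK : 0 ≤ K) (hT : 0 < T)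
    (h : test8 K T p1 q1 p2 q2 p3 q3 ax ay ax' ay' bx bz bx' bz' cx cy cx' cy' = true) :
    Good K ax ay ax' ay' bx bz bx' bz' cx cy cx' cy' := by
  unfold test8 at h
  simp only [Bool.and_eq_true, decide_eq_true_eq] at h
  obtain ⟨⟨⟨⟨⟨⟨⟨⟨⟨⟨h1, h2⟩, h3⟩, h4⟩, h5⟩, h6⟩, h7⟩, h8⟩, n1⟩, n2⟩, n3⟩ := h
  have h1 := phi_psi h1
  have h2 := phi_psi h2
  have h3 := phi_psi h3
  have h4 := phi_psi h4
  have h5 := phi_psi h5
  have h6 := phi_psi h6
  have h7 := phi_psi h7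
  have h8 := phi_psi h8
  rintro u1 v1 u2 v2 u3 v3 ⟨s, s0, s1, hu1, hv1⟩ ⟨t, t0, t1, hu2, hv2⟩ ⟨r, r0, r1, hu3, hv3⟩
  have key : 0 ≤ psi K T p1 q1 p2 q2 p3 q3 u1 v1 u2 v2 u3 v3 := by
    have := interp (interp (interp h1 h2 r0 r1) (interp h3 h4 r0 r1) t0 t1)
      (interp (interp h5 h6 r0 r1) (interp h7 h8 r0 r1) t0 t1) s0 s1
    refine this.trans (le_of_eq ?_)
    subst hu1 hv1 hu2 hv2 hu3 hv3
    unfold psi
    ring
  have hT' : (0 : ℝ) < T := by exact_mod_cast hT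
  have hK' : (0 : ℝ) ≤ K := by exact_mod_cast hK
  have m1 := lin_le (p := p1) (q := q1) (x := u2 - u1) (y := v2 - v1) hT'.le (by exact_mod_cast n1)
  have m2 := lin_le (p := p2) (q := q2) (x := u3 - u2) (y := v3 - v2) hT'.le (by exact_mod_cast n2)
  have m3 := lin_le (p := p3) (q := q3) (x := u1 - u3) (y := v1 - v3) hT'.le (by exact_mod_cast n3)
  unfold G
  unfold psi at key
  have m := mul_le_mul_of_nonneg_left (add_le_add (add_le_add m1 m2) m3) hK'
  apply le_of_mul_le_mul_left _ hT'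
  nlinarith

theorem seg_split {x y x' y' mx my : ℤ} (hx : 2 * mx = x + x') (hy : 2 * my = y + y') {u v : ℝ}
    (h : Seg x y x' y' u v) : Seg x y mx my u v ∨ Seg mx my x' y' u v := by
  obtain ⟨s, s0, s1, hu, hv⟩ := h
  have hx' : (mx : ℝ) = (x + x') / 2 := by
    have := congrArg (Int.cast (R := ℝ)) hx
    push_cast at this
    linarith
  have hy' : (my : ℝ) = (y + y') / 2 := by
    have := congrArg (Int.cast (R := ℝ)) hy
    push_cast at this
    linarith
  rcases le_total s (1 / 2) with hs | hs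
  · left
    refine ⟨2 * s, by linarith, by linarith, ?_, ?_⟩
    · rw [hu, hx']; ring
    · rw [hv, hy']; ring
  · right
    refine ⟨2 * s - 1, by linarith, by linarith, ?_, ?_⟩
    · rw [hu, hx']; ring
    · rw [hv, hy']; ring

theorem chk_good {K T : ℤ} (hK : 0 ≤ K) (hT : 0 < T) (d : ℕ) :
    ∀ ax ay ax' ay' bx bz bx' bz' cx cy cx' cy' : ℤ,
      chk K T d ax ay ax' ay' bx bz bx' bz' cx cy cx' cy' = true →
        Good K ax ay ax' ay' bx bz bx' bz' cx cy cx' cy' := by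
  induction d with
  | zero =>
    intro ax ay ax' ay' bx bz bx' bz' cx cy cx' cy' h
    exact test8_good hK hT h
  | succ d ih =>
    intro ax ay ax' ay' bx bz bx' bz' cx cy cx' cy' h
    rw [chk, Bool.or_eq_true] at h
    rcases h with h | h
    · exact test8_good hK hT h
    · intro u1 v1 u2 v2 u3 v3 hA hB hC
      cases hc : (Nat.blt (sz ax ay ax' ay') (sz bx bz bx' bz') ||
          Nat.blt (sz ax ay ax' ay') (sz cx cy cx' cy'))
      · rw [hc, cond_false] at h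
        simp only [Bool.and_eq_true, decide_eq_true_eq] at h
        obtain ⟨⟨⟨e1, e2⟩, l⟩, r⟩ := h
        rcases seg_split e1 e2 hA with h | h
        · exact ih _ _ _ _ _ _ _ _ _ _ _ _ l _ _ _ _ _ _ h hB hC
        · exact ih _ _ _ _ _ _ _ _ _ _ _ _ r _ _ _ _ _ _ h hB hC
      · rw [hc, cond_true] at h
        cases hd : Nat.blt (sz bx bz bx' bz') (sz cx cy cx' cy')
        · rw [hd, cond_false] at h
          simp only [Bool.and_eq_true, decide_eq_true_eq] at h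
          obtain ⟨⟨⟨e1, e2⟩, l⟩, r⟩ := h
          rcases seg_split e1 e2 hB with h | h
          · exact ih _ _ _ _ _ _ _ _ _ _ _ _ l _ _ _ _ _ _ hA h hC
          · exact ih _ _ _ _ _ _ _ _ _ _ _ _ r _ _ _ _ _ _ hA h hC
        · rw [hd, cond_true] at h
          simp only [Bool.and_eq_true, decide_eq_true_eq] at h
          obtain ⟨⟨⟨e1, e2⟩, l⟩, r⟩ := h
          rcases seg_split e1 e2 hC with h | h
          · exact ih _ _ _ _ _ _ _ _ _ _ _ _ l _ _ _ _ _ _ hA hB h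
          · exact ih _ _ _ _ _ _ _ _ _ _ _ _ r _ _ _ _ _ _ hA hB h

end Pool.Agent.MP_cd4638_co.H97
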