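import Mathlib

/-! Width, inradius, the largest inradius of an inscribed triangle, the regular pentagon. -/

namespace Pool.Agent.MP_cd4638_co.H97

/-- The width: the least length of an orthogonal projection onto a line. -/
noncomputable def width (F : Set (EuclideanSpace ℝ (Fin 2))) : ℝ :=
  ⨅ u : Metric.sphere (0 : EuclideanSpace ℝ (Fin 2)) 1,
    (sSup ((fun x => inner ℝ u.1 x) '' F) - sInf ((fun x => inner ℝ u.1 x) '' F))

/-- The inradius: the largest radius of a closed disk contained in the set. -/
noncomputable def inradius (K : Set (EuclideanSpace ℝ (Fin 2))) : ℝ :=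
  sSup {r | 0 ≤ r ∧ ∃ z, Metric.closedBall z r ⊆ K}

/-- The largest inradius of a triangle contained in `F`. -/
noncomputable def triRad (F : Set (EuclideanSpace ℝ (Fin 2))) : ℝ :=
  sSup {r | ∃ A B C : EuclideanSpace ℝ (Fin 2), AffineIndependent ℝ ![A, B, C] ∧
    convexHull ℝ {A, B, C} ⊆ F ∧ r = inradius (convexHull ℝ {A, B, C})}

/-- The regular pentagon of circumradius `1 / (1 + cos (π / 5))` centred at the origin. -/
noncomputable def pentagon : Set (EuclideanSpace ℝ (Fin 2)) :=
  convexHull ℝ (Set.range fun k : Fin 5 => (1 / (1 + Real.cos (Real.pi / 5))) •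
    !₂[Real.cos (2 * Real.pi * (k : ℕ) / 5), Real.sin (2 * Real.pi * (k : ℕ) / 5)])

end Pool.Agent.MP_cd4638_co.H97
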