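import Pool.Agent.MP_cd4638_co.H97.Defs

/-! General lemmas on width and on disks inside triangles. -/

namespace Pool.Agent.MP_cd4638_co.H97

open Set Metric

theorem inner_two (u x : EuclideanSpace ℝ (Fin 2)) : inner ℝ u x = u 0 * x 0 + u 1 * x 1 := by
  simp [PiLp.inner_apply, Fin.sum_univ_two, mul_comm]

theorem dist_two (x y : EuclideanSpace ℝ (Fin 2)) :
    dist x y = √((x 0 - y 0) ^ 2 + (x 1 - y 1) ^ 2) := by
  rw [EuclideanSpace.dist_eq, Fin.sum_univ_two, Real.dist_eq, Real.dist_eq, sq_abs, sq_abs]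

theorem sphere_sq {u : EuclideanSpace ℝ (Fin 2)} (hu : u ∈ sphere (0 : EuclideanSpace ℝ (Fin 2)) 1) :
    u 0 ^ 2 + u 1 ^ 2 = 1 := by
  rw [mem_sphere, dist_two] at hu
  simp only [PiLp.zero_apply, sub_zero] at hu
  have := Real.sq_sqrt (add_nonneg (sq_nonneg (u 0)) (sq_nonneg (u 1)))
  rw [hu] at this
  linarith

theorem width_eq_one {F : Set (EuclideanSpace ℝ (Fin 2))} (hc : IsCompact F) (hne : F.Nonempty)
    (h1 : ∀ x y : ℝ, x ^ 2 + y ^ 2 = 1 → ∃ p ∈ F, ∃ q ∈ F,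
      1 ≤ x * (p 0 - q 0) + y * (p 1 - q 1))
    (m : ℝ) (h2 : ∀ p ∈ F, m ≤ p 0 ∧ p 0 ≤ m + 1) : width F = 1 := by
  have low : ∀ u : sphere (0 : EuclideanSpace ℝ (Fin 2)) 1,
      1 ≤ sSup ((fun x => inner ℝ u.1 x) '' F) - sInf ((fun x => inner ℝ u.1 x) '' F) := by
    intro u
    obtain ⟨p, hp, q, hq, h⟩ := h1 _ _ (sphere_sq u.2)
    have hcont : Continuous fun x : EuclideanSpace ℝ (Fin 2) => inner ℝ u.1 x := by fun_prop
    have hK := hc.image hcont
    have a1 := le_csSup hK.bddAbove (mem_image_of_mem _ hp)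
    have a2 := csInf_le hK.bddBelow (mem_image_of_mem _ hq)
    simp only [inner_two] at a1 a2 ⊢
    linarith
  have he : (!₂[1, 0] : EuclideanSpace ℝ (Fin 2)) ∈ sphere (0 : EuclideanSpace ℝ (Fin 2)) 1 := by
    rw [mem_sphere, dist_two]
    simp
  have : Nonempty (sphere (0 : EuclideanSpace ℝ (Fin 2)) 1) := ⟨⟨_, he⟩⟩
  apply le_antisymm
  · refine (ciInf_le ⟨1, ?_⟩ ⟨_, he⟩).trans ?_
    · rintro _ ⟨u, rfl⟩
      exact low u
    · have b1 : sSup ((fun x => inner ℝ (!₂[1, 0] : EuclideanSpace ℝ (Fin 2)) x) '' F) ≤ m + 1 := by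
        apply csSup_le (hne.image _)
        rintro _ ⟨p, hp, rfl⟩
        simpa [inner_two] using (h2 p hp).2
      have b2 : m ≤ sInf ((fun x => inner ℝ (!₂[1, 0] : EuclideanSpace ℝ (Fin 2)) x) '' F) := by
        apply le_csInf (hne.image _)
        rintro _ ⟨p, hp, rfl⟩
        simpa [inner_two] using (h2 p hp).1
      linarith
  · exact le_ciInf low

/-- An affine function that is nonnegative on a disk is large at its centre. -/
theorem ball_affine {z : EuclideanSpace ℝ (Fin 2)} {r p q c : ℝ} (hr : 0 ≤ r)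
    (h : ∀ x ∈ closedBall z r, 0 ≤ p * x 0 + q * x 1 + c) :
    r * √(p ^ 2 + q ^ 2) ≤ p * z 0 + q * z 1 + c := by
  set N := √(p ^ 2 + q ^ 2) with hN
  have hN2 : N ^ 2 = p ^ 2 + q ^ 2 := Real.sq_sqrt (by positivity)
  rcases (Real.sqrt_nonneg (p ^ 2 + q ^ 2)).eq_or_lt with h0 | h0
  · have := h z (mem_closedBall_self hr)
    rw [hN, ← h0]
    linarith
  · have h0' : 0 < N := h0
    have hx : (!₂[z 0 - r / N * p, z 1 - r / N * q] : EuclideanSpace ℝ (Fin 2)) ∈ closedBall z r := by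
      rw [mem_closedBall, dist_two]
      apply Real.sqrt_le_iff.2 ⟨hr, le_of_eq ?_⟩
      simp only [Matrix.cons_val_zero, Matrix.cons_val_one]
      field_simp
      linear_combination (-r ^ 2) * hN2
    have := h _ hx
    simp only [Matrix.cons_val_zero, Matrix.cons_val_one] at this
    have e : r * N = r / N * (p ^ 2 + q ^ 2) := by
      rw [← hN2]
      field_simp
    rw [e]
    linarith

theorem hull_affine {A B C : EuclideanSpace ℝ (Fin 2)} {p q c : ℝ}
    (hA : 0 ≤ p * A 0 + q * A 1 + c) (hB : 0 ≤ p * B 0 + q * B 1 + c)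
    (hC : 0 ≤ p * C 0 + q * C 1 + c) :
    ∀ x ∈ convexHull ℝ ({A, B, C} : Set (EuclideanSpace ℝ (Fin 2))), 0 ≤ p * x 0 + q * x 1 + c := by
  have : convexHull ℝ ({A, B, C} : Set (EuclideanSpace ℝ (Fin 2))) ⊆
      {x | 0 ≤ p * x 0 + q * x 1 + c} := by
    apply convexHull_min
    · rintro x (rfl | rfl | rfl)
      exacts [hA, hB, hC]
    · intro x hx y hy a b ha hb hab
      simp only [mem_ofPred_eq, PiLp.add_apply, PiLp.smul_apply, smul_eq_mul] at hx hy ⊢
      have e : p * (a * x 0 + b * y 0) + q * (a * x 1 + b * y 1) + c =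
          a * (p * x 0 + q * x 1 + c) + b * (p * y 0 + q * y 1 + c) := by
        linear_combination (-c) * hab
      rw [e]
      positivity
  exact fun x hx => this hx

/-- A disk inside a positively oriented triangle: radius times perimeter is at most twice the
area. -/
theorem ball_tri {A B C z : EuclideanSpace ℝ (Fin 2)} {r : ℝ} (hr : 0 ≤ r)
    (hp : 0 ≤ (B 0 - A 0) * (C 1 - A 1) - (B 1 - A 1) * (C 0 - A 0))
    (h : closedBall z r ⊆ convexHull ℝ {A, B, C}) :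
    r * (√((B 0 - A 0) ^ 2 + (B 1 - A 1) ^ 2) + √((C 0 - B 0) ^ 2 + (C 1 - B 1) ^ 2)
      + √((A 0 - C 0) ^ 2 + (A 1 - C 1) ^ 2)) ≤
      (B 0 - A 0) * (C 1 - A 1) - (B 1 - A 1) * (C 0 - A 0) := by
  have h1 := ball_affine (p := -(B 1 - A 1)) (q := B 0 - A 0)
    (c := (B 1 - A 1) * A 0 - (B 0 - A 0) * A 1) hr fun x hx =>
      hull_affine (by linarith) (by linarith) (by linarith) x (h hx)
  have h2 := ball_affine (p := -(C 1 - B 1)) (q := C 0 - B 0)
    (c := (C 1 - B 1) * B 0 - (C 0 - B 0) * B 1) hr fun x hx =>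
      hull_affine (by linarith) (by linarith) (by linarith) x (h hx)
  have h3 := ball_affine (p := -(A 1 - C 1)) (q := A 0 - C 0)
    (c := (A 1 - C 1) * C 0 - (A 0 - C 0) * C 1) hr fun x hx =>
      hull_affine (by linarith) (by linarith) (by linarith) x (h hx)
  rw [neg_sq, add_comm] at h1 h2 h3
  linarith

/-- If twice the signed area is at most `c` times the perimeter for all triples of points of `F`,
every triangle in `F` has inradius at most `c`. -/
theorem triRad_le {F : Set (EuclideanSpace ℝ (Fin 2))} {c : ℝ} (hc : 0 ≤ c)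
    (h : ∀ A ∈ F, ∀ B ∈ F, ∀ C ∈ F, (B 0 - A 0) * (C 1 - A 1) - (B 1 - A 1) * (C 0 - A 0) ≤
      c * (√((B 0 - A 0) ^ 2 + (B 1 - A 1) ^ 2) + √((C 0 - B 0) ^ 2 + (C 1 - B 1) ^ 2)
      + √((A 0 - C 0) ^ 2 + (A 1 - C 1) ^ 2))) : triRad F ≤ c := by
  have main : ∀ A B C z : EuclideanSpace ℝ (Fin 2), ∀ r : ℝ, 0 ≤ r → A ∈ F → B ∈ F → C ∈ F →
      B ≠ C → 0 ≤ (B 0 - A 0) * (C 1 - A 1) - (B 1 - A 1) * (C 0 - A 0) →
      closedBall z r ⊆ convexHull ℝ {A, B, C} → r ≤ c := by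
    intro A B C z r hr hA hB hC hne hp hb
    have h1 := (ball_tri hr hp hb).trans (h A hA B hB C hC)
    refine le_of_mul_le_mul_right h1 ?_
    have : 0 < √((C 0 - B 0) ^ 2 + (C 1 - B 1) ^ 2) := by
      rw [← dist_two]
      exact dist_pos.2 hne.symm
    positivity
  apply Real.sSup_le _ hc
  rintro _ ⟨A, B, C, hi, hs, rfl⟩
  apply Real.sSup_le _ hc
  rintro r ⟨hr, z, hz⟩
  have hA : A ∈ F := hs (subset_convexHull _ _ (by simp))
  have hB : B ∈ F := hs (subset_convexHull _ _ (by simp))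
  have hC : C ∈ F := hs (subset_convexHull _ _ (by simp))
  have hne : B ≠ C := by
    intro e
    have := hi.injective (a₁ := 1) (a₂ := 2) (by simpa using e)
    exact absurd this (by decide)
  rcases le_total 0 ((B 0 - A 0) * (C 1 - A 1) - (B 1 - A 1) * (C 0 - A 0)) with hp | hp
  · exact main A B C z r hr hA hB hC hne hp hz
  · refine main A C B z r hr hA hC hB hne.symm (by linarith) ?_
    rwa [Set.pair_comm C B]

/-- A vector that is long in two directions is long in all directions between them. -/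
theorem cone_ge {x y d1 d2 e1 e2 v1 v2 : ℝ} (hu : x ^ 2 + y ^ 2 = 1)
    (h1 : 0 ≤ d1 * y - d2 * x) (h2 : 0 ≤ x * e2 - y * e1) (h3 : 0 < d1 * e2 - d2 * e1)
    (hd0 : 0 ≤ v1 * d1 + v2 * d2) (hd : d1 ^ 2 + d2 ^ 2 ≤ (v1 * d1 + v2 * d2) ^ 2)
    (he0 : 0 ≤ v1 * e1 + v2 * e2) (he : e1 ^ 2 + e2 ^ 2 ≤ (v1 * e1 + v2 * e2) ^ 2) :
    1 ≤ x * v1 + y * v2 := by
  have a1 : x * d1 + y * d2 ≤ v1 * d1 + v2 * d2 := by
    refine (abs_le_of_sq_le_sq' (le_trans ?_ hd) hd0).2
    nlinarith [sq_nonneg (x * d2 - y * d1)]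
  have a2 : x * e1 + y * e2 ≤ v1 * e1 + v2 * e2 := by
    refine (abs_le_of_sq_le_sq' (le_trans ?_ he) he0).2
    nlinarith [sq_nonneg (x * e2 - y * e1)]
  have b1 := mul_le_mul_of_nonneg_left a1 h2
  have b2 := mul_le_mul_of_nonneg_left a2 h1
  apply le_of_mul_le_mul_left _ h3
  have c1 : (d1 * e2 - d2 * e1) * 1 =
      (x * e2 - y * e1) * (x * d1 + y * d2) + (d1 * y - d2 * x) * (x * e1 + y * e2) := by
    linear_combination (-(d1 * e2 - d2 * e1)) * hu
  rw [c1]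
  linarith

end Pool.Agent.MP_cd4638_co.H97
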