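import Pool.Agent.MP_cd4638_co.H97.Geo

/-! The regular pentagon: width one, and it contains a triangle of inradius `0.244`. -/

namespace Pool.Agent.MP_cd4638_co.H97

open Set Metric Real

/-- The vertices of the pentagon. -/
noncomputable def vtx (k : Fin 5) : EuclideanSpace ℝ (Fin 2) := (1 / (1 + cos (π / 5))) •
    !₂[cos (2 * π * (k : ℕ) / 5), sin (2 * π * (k : ℕ) / 5)]

theorem vtx_mem (k : Fin 5) : vtx k ∈ pentagon := subset_convexHull _ _ ⟨k, rfl⟩

theorem quad : 4 * cos (π / 5) ^ 2 - 2 * cos (π / 5) - 1 = 0 := quadratic_root_cos_pi_div_five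

theorem c_bounds : 0.80901699 ≤ cos (π / 5) ∧ cos (π / 5) ≤ 0.809017 := by
  rw [cos_pi_div_five]
  have h1 : (2.23606796 : ℝ) ≤ √5 := Real.le_sqrt_of_sq_le (by norm_num)
  have h2 : √5 ≤ (2.236068 : ℝ) := Real.sqrt_le_iff.2 ⟨by norm_num, by norm_num⟩
  constructor <;> linarith

theorem s_pos : 0 < sin (π / 5) :=
  sin_pos_of_pos_of_lt_pi (by positivity) (by linarith [pi_pos])

theorem s_bound : 0.5877852 ≤ sin (π / 5) := by
  have h := sin_sq_add_cos_sq (π / 5)
  have := c_bounds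
  have := quad
  exact (abs_le_of_sq_le_sq' (by nlinarith) s_pos.le).2

theorem cos2 : cos (2 * π / 5) = cos (π / 5) - 1 / 2 := by
  rw [show 2 * π / 5 = 2 * (π / 5) by ring, cos_two_mul]
  linarith [quad]

theorem sin2 : sin (2 * π / 5) = 2 * sin (π / 5) * cos (π / 5) := by
  rw [show 2 * π / 5 = 2 * (π / 5) by ring, sin_two_mul]

theorem vtx0 : vtx 0 0 = 1 / (1 + cos (π / 5)) ∧ vtx 0 1 = 0 := by
  simp [vtx]

theorem vtx1 : vtx 1 0 = 1 / (1 + cos (π / 5)) * (cos (π / 5) - 1 / 2) ∧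
    vtx 1 1 = 1 / (1 + cos (π / 5)) * (2 * sin (π / 5) * cos (π / 5)) := by
  rw [← cos2, ← sin2]
  simp [vtx]

theorem vtx2 : vtx 2 0 = 1 / (1 + cos (π / 5)) * (-cos (π / 5)) ∧
    vtx 2 1 = 1 / (1 + cos (π / 5)) * sin (π / 5) := by
  rw [← cos_pi_sub, ← sin_pi_sub, show π - π / 5 = 2 * π * 2 / 5 by ring]
  simp [vtx]

theorem vtx3 : vtx 3 0 = 1 / (1 + cos (π / 5)) * (-cos (π / 5)) ∧
    vtx 3 1 = 1 / (1 + cos (π / 5)) * (-sin (π / 5)) := by
  rw [← cos_add_pi, ← sin_add_pi, show π / 5 + π = 2 * π * 3 / 5 by ring]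
  simp [vtx]

theorem vtx4 : vtx 4 0 = 1 / (1 + cos (π / 5)) * (cos (π / 5) - 1 / 2) ∧
    vtx 4 1 = 1 / (1 + cos (π / 5)) * (-(2 * sin (π / 5) * cos (π / 5))) := by
  rw [← cos2, ← sin2, ← cos_two_pi_sub (2 * π / 5), ← sin_two_pi_sub (2 * π / 5),
    show 2 * π - 2 * π / 5 = 2 * π * 4 / 5 by ring]
  simp [vtx]

theorem isCompact_pentagon : IsCompact pentagon := (finite_range _).isCompact_convexHull ℝ

theorem convex_pentagon : Convex ℝ pentagon := convex_convexHull _ _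

theorem pent_x {p : EuclideanSpace ℝ (Fin 2)} (hp : p ∈ pentagon) :
    1 / (1 + cos (π / 5)) - 1 ≤ p 0 ∧ p 0 ≤ 1 / (1 + cos (π / 5)) - 1 + 1 := by
  have hc := c_bounds
  have hR : 1 / (1 + cos (π / 5)) * (1 + cos (π / 5)) = 1 := by
    rw [one_div, inv_mul_cancel₀]
    linarith
  have hR0 : 0 < 1 / (1 + cos (π / 5)) := by
    apply one_div_pos.2
    linarith
  have : pentagon ⊆ {p | 1 / (1 + cos (π / 5)) - 1 ≤ p 0 ∧ p 0 ≤ 1 / (1 + cos (π / 5)) - 1 + 1} := by
    apply convexHull_min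
    · rintro _ ⟨k, rfl⟩
      change 1 / (1 + cos (π / 5)) - 1 ≤ vtx k 0 ∧ vtx k 0 ≤ 1 / (1 + cos (π / 5)) - 1 + 1
      have h0 := vtx0.1
      have h1 := vtx1.1
      have h2 := vtx2.1
      have h3 := vtx3.1
      have h4 := vtx4.1
      generalize 1 / (1 + cos (π / 5)) = R at *
      fin_cases k
      · change R - 1 ≤ vtx 0 0 ∧ vtx 0 0 ≤ R - 1 + 1
        constructor <;> nlinarith
      · change R - 1 ≤ vtx 1 0 ∧ vtx 1 0 ≤ R - 1 + 1
        constructor <;> nlinarith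
      · change R - 1 ≤ vtx 2 0 ∧ vtx 2 0 ≤ R - 1 + 1
        constructor <;> nlinarith
      · change R - 1 ≤ vtx 3 0 ∧ vtx 3 0 ≤ R - 1 + 1
        constructor <;> nlinarith
      · change R - 1 ≤ vtx 4 0 ∧ vtx 4 0 ≤ R - 1 + 1
        constructor <;> nlinarith
    · intro x hx y hy a b ha hb hab
      simp only [mem_ofPred_eq, PiLp.add_apply, PiLp.smul_apply, smul_eq_mul] at hx hy ⊢
      have hb' : b = 1 - a := by linarith
      constructor <;> nlinarith [mul_le_mul_of_nonneg_left hx.1 ha, mul_le_mul_of_nonneg_left hx.2 ha,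
        mul_le_mul_of_nonneg_left hy.1 hb, mul_le_mul_of_nonneg_left hy.2 hb]
  exact this hp

theorem cone_one {x y d1 d2 e1 e2 v1 v2 : ℝ} (hu : x ^ 2 + y ^ 2 = 1)
    (h1 : 0 ≤ d1 * y - d2 * x) (h2 : 0 ≤ x * e2 - y * e1) (h3 : 0 < d1 * e2 - d2 * e1)
    (hd0 : v1 * d1 + v2 * d2 = 1) (hd : d1 ^ 2 + d2 ^ 2 = 1)
    (he0 : v1 * e1 + v2 * e2 = 1) (he : e1 ^ 2 + e2 ^ 2 = 1) :
    1 ≤ x * v1 + y * v2 :=
  cone_ge hu h1 h2 h3 (by linarith) (by rw [hd0, hd]; norm_num) (by linarith)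
    (by rw [he0, he]; norm_num)

theorem upper5 {x y : ℝ} (hu : x ^ 2 + y ^ 2 = 1) (hy : 0 ≤ y) :
    ∃ p ∈ pentagon, ∃ q ∈ pentagon, 1 ≤ x * (p 0 - q 0) + y * (p 1 - q 1) := by
  have hc := c_bounds
  have hq := quad
  have hs := sin_sq_add_cos_sq (π / 5)
  have hs0 := s_pos
  have hR : 1 / (1 + cos (π / 5)) * (1 + cos (π / 5)) = 1 := by
    rw [one_div, inv_mul_cancel₀]
    linarith
  obtain ⟨a0, b0⟩ := vtx0
  obtain ⟨a1, b1⟩ := vtx1
  obtain ⟨a2, b2⟩ := vtx2
  obtain ⟨a3, b3⟩ := vtx3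
  obtain ⟨a4, b4⟩ := vtx4
  generalize 1 / (1 + cos (π / 5)) = R at *
  generalize cos (π / 5) = c at *
  generalize sin (π / 5) = s at *
  have g0 : 0 ≤ (1 : ℝ) * y - 0 * x := by linarith
  rcases le_total 0 (x * s - y * c) with k0 | k0
  · refine ⟨_, vtx_mem 0, _, vtx_mem 3, ?_⟩
    rw [a0, b0, a3, b3]
    exact cone_one hu g0 k0 (by linarith) (by grind) (by grind) (by grind) (by grind)
  have g1 : 0 ≤ c * y - s * x := by linarith
  rcases le_total 0 (x * (2 * s * c) - y * (c - 1 / 2)) with k1 | k1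
  · refine ⟨_, vtx_mem 1, _, vtx_mem 3, ?_⟩
    rw [a1, b1, a3, b3]
    exact cone_one hu g1 k1 (by
      have : c * (2 * s * c) - s * (c - 1 / 2) = s := by grind
      linarith) (by grind) (by grind) (by grind) (by grind)
  have g2 : 0 ≤ (c - 1 / 2) * y - (2 * s * c) * x := by linarith
  rcases le_total 0 (x * (2 * s * c) - y * (-(c - 1 / 2))) with k2 | k2
  · refine ⟨_, vtx_mem 1, _, vtx_mem 4, ?_⟩
    rw [a1, b1, a4, b4]
    exact cone_one hu g2 k2 (by
      have : (c - 1 / 2) * (2 * s * c) - (2 * s * c) * (-(c - 1 / 2)) = s := by grind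
      linarith) (by grind) (by grind) (by grind) (by grind)
  have g3 : 0 ≤ (-(c - 1 / 2)) * y - (2 * s * c) * x := by linarith
  rcases le_total 0 (x * s - y * (-c)) with k3 | k3
  · refine ⟨_, vtx_mem 2, _, vtx_mem 4, ?_⟩
    rw [a2, b2, a4, b4]
    exact cone_one hu g3 k3 (by
      have : (-(c - 1 / 2)) * s - (2 * s * c) * (-c) = s := by grind
      linarith) (by grind) (by grind) (by grind) (by grind)
  have g4 : 0 ≤ (-c) * y - s * x := by linarith
  have k4 : 0 ≤ x * (0 : ℝ) - y * (-1) := by linarith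
  refine ⟨_, vtx_mem 2, _, vtx_mem 0, ?_⟩
  rw [a2, b2, a0, b0]
  exact cone_one hu g4 k4 (by linarith) (by grind) (by grind) (by grind) (by grind)

theorem width_pentagon : width pentagon = 1 := by
  refine width_eq_one isCompact_pentagon ⟨_, vtx_mem 0⟩ ?_ _ fun p hp => pent_x hp
  intro x y hu
  rcases le_total 0 y with hy | hy
  · exact upper5 hu hy
  · obtain ⟨p, hp, q, hq, h⟩ := upper5 (x := -x) (y := -y) (by linarith) (by linarith)
    exact ⟨q, hq, p, hp, by linarith⟩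

/-- Membership in an isosceles triangle. -/
theorem mem_iso {A B C X : EuclideanSpace ℝ (Fin 2)} {R a b : ℝ} (hA0 : A 0 = R) (hA1 : A 1 = 0)
    (hB0 : B 0 = a) (hB1 : B 1 = b) (hC0 : C 0 = a) (hC1 : C 1 = -b) (hR : a < R) (hb : 0 < b)
    (h1 : a ≤ X 0) (h2 : X 1 * (R - a) ≤ b * (R - X 0)) (h3 : -X 1 * (R - a) ≤ b * (R - X 0)) :
    X ∈ convexHull ℝ ({A, B, C} : Set (EuclideanSpace ℝ (Fin 2))) := by
  have hd : 0 < R - a := by linarith
  have hA : A ∈ convexHull ℝ ({A, B, C} : Set (EuclideanSpace ℝ (Fin 2))) :=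
    subset_convexHull _ _ (by simp)
  have hB : B ∈ convexHull ℝ ({A, B, C} : Set (EuclideanSpace ℝ (Fin 2))) :=
    subset_convexHull _ _ (by simp)
  have hC : C ∈ convexHull ℝ ({A, B, C} : Set (EuclideanSpace ℝ (Fin 2))) :=
    subset_convexHull _ _ (by simp)
  have := (convex_convexHull ℝ ({A, B, C} : Set (EuclideanSpace ℝ (Fin 2)))).sum_mem
    (t := Finset.univ) (w := ![(X 0 - a) / (R - a),
      (b * (R - X 0) + X 1 * (R - a)) / (2 * b * (R - a)),
      (b * (R - X 0) - X 1 * (R - a)) / (2 * b * (R - a))]) (z := ![A, B, C]) ?_ ?_ ?_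
  · convert this using 1
    ext i
    fin_cases i
    · simp [Fin.sum_univ_three, hA0, hB0, hC0]
      field_simp
      ring
    · simp [Fin.sum_univ_three, hA1, hB1, hC1]
      field_simp
      ring
  · intro i _
    fin_cases i
    · exact div_nonneg (by linarith) hd.le
    · exact div_nonneg (by linarith) (by positivity)
    · exact div_nonneg (by linarith) (by positivity)
  · simp [Fin.sum_univ_three]
    field_simp
    ring
  · intro i _
    fin_cases i
    exacts [hA, hB, hC]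

theorem radius_le {K : Set (EuclideanSpace ℝ (Fin 2))} (hK : K ⊆ pentagon) :
    ∀ r ∈ {r | 0 ≤ r ∧ ∃ z, closedBall z r ⊆ K}, r ≤ 1 := by
  rintro r ⟨hr, z, hz⟩
  have h1 := ball_affine (p := 1) (q := 0) (c := -(1 / (1 + cos (π / 5)) - 1)) hr
    fun x hx => by linarith [(pent_x (hK (hz hx))).1]
  have h2 := (pent_x (hK (hz (mem_closedBall_self hr)))).2
  simp only [one_pow, ne_eq, OfNat.ofNat_ne_zero, not_false_eq_true, zero_pow, add_zero,
    sqrt_one] at h1
  linarith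

theorem triRad_pentagon : 0.244 ≤ triRad pentagon := by
  have hc := c_bounds
  have hq := quad
  have hs := s_bound
  have hR : 1 / (1 + cos (π / 5)) * (1 + cos (π / 5)) = 1 := by
    rw [one_div, inv_mul_cancel₀]
    linarith
  have hR0 : 0 < 1 / (1 + cos (π / 5)) := by
    apply one_div_pos.2
    linarith
  obtain ⟨a0, b0⟩ := vtx0
  obtain ⟨a1, b1⟩ := vtx1
  obtain ⟨a2, b2⟩ := vtx2
  obtain ⟨a3, b3⟩ := vtx3
  obtain ⟨a4, b4⟩ := vtx4
  generalize 1 / (1 + cos (π / 5)) = R at *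
  generalize cos (π / 5) = c at *
  generalize sin (π / 5) = s at *
  have hR1 : 0.5527864 ≤ R := by nlinarith
  have hR2 : R ≤ 0.5527865 := by nlinarith
  set B := (3 / 11 : ℝ) • vtx 1 + (8 / 11 : ℝ) • vtx 2 with hB
  set C := (3 / 11 : ℝ) • vtx 4 + (8 / 11 : ℝ) • vtx 3 with hC
  have hBm : B ∈ pentagon :=
    convex_pentagon (vtx_mem 1) (vtx_mem 2) (by norm_num) (by norm_num) (by norm_num)
  have hCm : C ∈ pentagon :=
    convex_pentagon (vtx_mem 4) (vtx_mem 3) (by norm_num) (by norm_num) (by norm_num)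
  obtain ⟨a, ha⟩ : ∃ a, a = 3 / 11 * (R * (c - 1 / 2)) + 8 / 11 * (R * -c) := ⟨_, rfl⟩
  obtain ⟨b, hb⟩ : ∃ b, b = 3 / 11 * (R * (2 * s * c)) + 8 / 11 * (R * s) := ⟨_, rfl⟩
  have hB0 : B 0 = a := by simp [hB, a1, a2, ha]
  have hB1 : B 1 = b := by simp [hB, b1, b2, hb]
  have hC0 : C 0 = a := by simp [hC, a3, a4, ha]
  have hC1 : C 1 = -b := by
    simp [hC, b3, b4, hb]
    ring
  have ha' : a = 7 / 22 * R - 5 / 11 := by linarith
  have hb' : 0.3796864 ≤ b := by
    have m1 : 0.5527864 * 0.5877852 ≤ R * s := mul_le_mul hR1 hs (by norm_num) hR0.le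
    have m2 : 0.5527864 * 0.5877852 * 0.80901699 ≤ R * s * c :=
      mul_le_mul m1 hc.1 (by norm_num) (by linarith)
    nlinarith
  have hsub : convexHull ℝ {vtx 0, B, C} ⊆ pentagon := by
    apply convexHull_min _ convex_pentagon
    rintro x (rfl | rfl | rfl)
    exacts [vtx_mem 0, hBm, hCm]
  have hball : closedBall (!₂[-0.03465, 0] : EuclideanSpace ℝ (Fin 2)) 0.244 ⊆
      convexHull ℝ {vtx 0, B, C} := by
    intro X hX
    rw [mem_closedBall, dist_two, Real.sqrt_le_iff] at hX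
    have hX := hX.2
    simp only [Matrix.cons_val_zero, Matrix.cons_val_one, sub_zero] at hX
    have x1 : -0.27865 ≤ X 0 := by nlinarith [sq_nonneg (X 1)]
    have x2 : X 0 ≤ 0.20935 := by nlinarith [sq_nonneg (X 1)]
    have key : ∀ y : ℝ, (X 0 - -0.03465) ^ 2 + y ^ 2 ≤ 0.244 ^ 2 → y * (R - a) ≤ b * (R - X 0) := by
      intro y hy
      have y2 : y ≤ 0.244 := by nlinarith [sq_nonneg (X 0 - -0.03465)]
      have n1 : 0.3796864 * (0.5527864 - X 0) ≤ b * (R - X 0) :=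
        mul_le_mul hb' (by linarith) (by linarith) (by linarith)
      rcases le_total y 0 with y0 | y0
      · have : y * (R - a) ≤ 0 := mul_nonpos_of_nonpos_of_nonneg y0 (by linarith)
        linarith
      · have n2 : y * (R - a) ≤ y * 0.8314454 := mul_le_mul_of_nonneg_left (by linarith) y0
        have n3 : 0.3796864 * (X 0 - -0.03465) + 0.8314454 * y ≤ 0.22303 := by
          refine (abs_le_of_sq_le_sq' ?_ (by norm_num)).2
          nlinarith [sq_nonneg (0.3796864 * y - 0.8314454 * (X 0 - -0.03465))]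
        linarith
    refine mem_iso a0 b0 hB0 hB1 hC0 hC1 (by linarith) (by linarith) (by linarith) (key _ hX) ?_
    exact key _ (by rw [neg_sq]; exact hX)
  have hind : AffineIndependent ℝ ![vtx 0, B, C] := by
    rw [affineIndependent_iff_linearIndependent_vsub ℝ _ (0 : Fin 3),
      ← linearIndependent_equiv (finSuccAboveEquiv (0 : Fin 3))]
    have : ((fun i : { x : Fin 3 // x ≠ 0 } => ![vtx 0, B, C] i -ᵥ ![vtx 0, B, C] 0) ∘
        finSuccAboveEquiv (0 : Fin 3)) = ![B - vtx 0, C - vtx 0] := by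
      ext1 i
      fin_cases i <;> rfl
    rw [this, LinearIndependent.pair_iff]
    intro p q h
    have h0 := congrArg (fun v : EuclideanSpace ℝ (Fin 2) => v 0) h
    have h1 := congrArg (fun v : EuclideanSpace ℝ (Fin 2) => v 1) h
    simp only [PiLp.add_apply, PiLp.smul_apply, PiLp.sub_apply, smul_eq_mul, PiLp.zero_apply,
      hB0, hB1, hC0, hC1, a0, b0] at h0 h1
    have e0 : (p + q) * (a - R) = 0 := by linarith
    have e1 : (p - q) * b = 0 := by linarith
    have e2 := (mul_eq_zero.1 e0).resolve_right (by linarith)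
    have e3 := (mul_eq_zero.1 e1).resolve_right (by linarith)
    constructor <;> linarith
  refine le_trans ?_ (le_csSup ⟨1, ?_⟩ ⟨vtx 0, B, C, hind, hsub, rfl⟩)
  · exact le_csSup ⟨1, radius_le hsub⟩ ⟨by norm_num, _, hball⟩
  · rintro _ ⟨A', B', C', -, hs', rfl⟩
    exact Real.sSup_le (radius_le hs') zero_le_one

end Pool.Agent.MP_cd4638_co.H97
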