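import Pool.Agent.MP_cd4638_co.H97.Run
import Pool.Agent.MP_cd4638_co.H97.Geo

/-! The polygon with eleven vertices: width one, all triangles have inradius at most `0.24391`. -/

namespace Pool.Agent.MP_cd4638_co.H97

open Set Metric

/-- The affine function vanishing on the line through an edge. -/
def cr (e : ℤ × ℤ × ℤ × ℤ) (u v : ℝ) : ℝ :=
  ((e.2.2.1 : ℝ) - e.1) * (v - e.2.1) - ((e.2.2.2 : ℝ) - e.2.1) * (u - e.1)

/-- The scaled polygon. -/
def InP (u v : ℝ) : Prop := ∀ e ∈ edges, 0 ≤ cr e u v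

theorem inP_iff (u v : ℝ) : InP u v ↔
    (0 ≤ ((149721088 : ℝ) - (224665600)) * (v - (0)) - ((108777472) - (0)) * (u - (224665600)) ∧
    0 ≤ ((69427200 : ℝ) - (149721088)) * (v - (108777472)) - ((213667840) - (108777472)) * (u - (149721088)) ∧
    0 ≤ ((-57184256 : ℝ) - (69427200)) * (v - (213667840)) - ((176013312) - (213667840)) * (u - (69427200)) ∧
    0 ≤ ((-181760000 : ℝ) - (-57184256)) * (v - (176013312)) - ((132055040) - (176013312)) * (u - (-57184256)) ∧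
    0 ≤ ((-184934400 : ℝ) - (-181760000)) * (v - (132055040)) - ((5128192) - (132055040)) * (u - (-181760000)) ∧
    0 ≤ ((-184934400 : ℝ) - (-184934400)) * (v - (5128192)) - ((-5128192) - (5128192)) * (u - (-184934400)) ∧
    0 ≤ ((-181760000 : ℝ) - (-184934400)) * (v - (-5128192)) - ((-132055040) - (-5128192)) * (u - (-184934400)) ∧
    0 ≤ ((-57184256 : ℝ) - (-181760000)) * (v - (-132055040)) - ((-176013312) - (-132055040)) * (u - (-181760000)) ∧
    0 ≤ ((69427200 : ℝ) - (-57184256)) * (v - (-176013312)) - ((-213667840) - (-176013312)) * (u - (-57184256)) ∧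
    0 ≤ ((149721088 : ℝ) - (69427200)) * (v - (-213667840)) - ((-108777472) - (-213667840)) * (u - (69427200)) ∧
    0 ≤ ((224665600 : ℝ) - (149721088)) * (v - (-108777472)) - ((0) - (-108777472)) * (u - (149721088))) := by
  simp only [InP, edges, List.forall_mem_cons, cr]
  push_cast
  simp

theorem seg_of_tight {u v : ℝ} (h : InP u v) {e : ℤ × ℤ × ℤ × ℤ} (he : e ∈ edges)
    (h0 : cr e u v = 0) : Seg e.1 e.2.1 e.2.2.1 e.2.2.2 u v := by
  rw [inP_iff] at h
  obtain ⟨h1, h2, h3, h4, h5, h6, h7, h8, h9, h10, h11⟩ := h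
  simp only [edges, List.mem_cons, List.not_mem_nil, or_false] at he
  unfold Seg
  refine ⟨((u - e.1) * (e.2.2.1 - e.1) + (v - e.2.1) * (e.2.2.2 - e.2.1)) /
    (((e.2.2.1 : ℝ) - e.1) ^ 2 + ((e.2.2.2 : ℝ) - e.2.1) ^ 2), ?_⟩
  rcases he with rfl | rfl | rfl | rfl | rfl | rfl | rfl | rfl | rfl | rfl | rfl <;>
  · simp only [cr] at h0
    push_cast at h0 ⊢
    norm_num at h0 h1 h2 h3 h4 h5 h6 h7 h8 h9 h10 h11 ⊢
    refine ⟨?_, ?_, ?_, ?_⟩ <;> linarith

theorem exists_exit {a1 a2 b1 b2 : ℝ} (ha : InP a1 a2) (hb : InP b1 b2)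
    (hne : ¬ (a1 = b1 ∧ a2 = b2)) :
    ∃ t : ℝ, 1 ≤ t ∧ InP (b1 + t * (a1 - b1)) (b2 + t * (a2 - b2)) ∧
      ∃ e ∈ edges, cr e (b1 + t * (a1 - b1)) (b2 + t * (a2 - b2)) = 0 := by
  classical
  have aff : ∀ (e : ℤ × ℤ × ℤ × ℤ) (t : ℝ), cr e (b1 + t * (a1 - b1)) (b2 + t * (a2 - b2)) =
      cr e b1 b2 - t * (cr e b1 b2 - cr e a1 a2) := by
    intro e t
    unfold cr
    ring
  have hex : (edges.toFinset.filter fun e => 0 < cr e b1 b2 - cr e a1 a2).Nonempty := by
    by_contra hn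
    rw [Finset.not_nonempty_iff_eq_empty, Finset.filter_eq_empty_iff] at hn
    have hn' : ∀ e ∈ edges, cr e b1 b2 - cr e a1 a2 ≤ 0 := fun e he =>
      not_lt.1 (hn (List.mem_toFinset.2 he))
    simp only [edges, List.forall_mem_cons, cr] at hn'
    push_cast at hn'
    obtain ⟨h1, h2, h3, h4, h5, h6, h7, h8, h9, h10, h11, -⟩ := hn'
    apply hne
    constructor <;> apply le_antisymm <;> linarith
  obtain ⟨e, he, hmin⟩ := Finset.exists_min_image _
    (fun e => cr e b1 b2 / (cr e b1 b2 - cr e a1 a2)) hex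
  rw [Finset.mem_filter, List.mem_toFinset] at he
  refine ⟨cr e b1 b2 / (cr e b1 b2 - cr e a1 a2), ?_, ?_, e, he.1, ?_⟩
  · rw [le_div_iff₀ he.2]
    linarith [ha e he.1]
  · intro f hf
    rw [aff]
    have t0 : 0 ≤ cr e b1 b2 / (cr e b1 b2 - cr e a1 a2) := div_nonneg (hb e he.1) he.2.le
    rcases lt_or_ge 0 (cr f b1 b2 - cr f a1 a2) with hp | hp
    · have := hmin f (Finset.mem_filter.2 ⟨List.mem_toFinset.2 hf, hp⟩)
      rw [le_div_iff₀ hp] at this
      linarith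
    · nlinarith [hb f hf, mul_nonneg t0 (neg_nonneg.2 hp)]
  · rw [aff, div_mul_cancel₀ _ he.2.ne', sub_self]

theorem sqrt_scale {t x y : ℝ} (ht : 0 ≤ t) :
    √((t * x) ^ 2 + (t * y) ^ 2) = t * √(x ^ 2 + y ^ 2) := by
  rw [mul_pow, mul_pow, ← mul_add, Real.sqrt_mul (sq_nonneg t), Real.sqrt_sq ht]

theorem sqrt_tri (x y x' y' : ℝ) :
    √((x + x') ^ 2 + (y + y') ^ 2) ≤ √(x ^ 2 + y ^ 2) + √(x' ^ 2 + y' ^ 2) := by
  have h := lin_le (p := x) (q := y) (T := √(x ^ 2 + y ^ 2)) (x := x') (y := y')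
    (Real.sqrt_nonneg _) (by rw [Real.mul_self_sqrt (by positivity)]; linarith)
  apply Real.sqrt_le_iff.2 ⟨by positivity, ?_⟩
  rw [add_sq (√(x ^ 2 + y ^ 2)), Real.sq_sqrt (by positivity), Real.sq_sqrt (by positivity)]
  linarith

theorem G_cyc {K a1 a2 b1 b2 c1 c2 : ℝ} (h : G K b1 b2 c1 c2 a1 a2) : G K a1 a2 b1 b2 c1 c2 := by
  unfold G at h ⊢
  linarith

theorem push {K a1 a2 b1 b2 c1 c2 : ℝ} (hK : 0 ≤ K) (ha : InP a1 a2) (hb : InP b1 b2)
    (h : ¬ G K a1 a2 b1 b2 c1 c2) : ∃ u v : ℝ, InP u v ∧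
      (∃ e ∈ edges, Seg e.1 e.2.1 e.2.2.1 e.2.2.2 u v) ∧ ¬ G K u v b1 b2 c1 c2 := by
  have hne : ¬ (a1 = b1 ∧ a2 = b2) := by
    rintro ⟨rfl, rfl⟩
    apply h
    unfold G
    simp only [sub_self, zero_mul]
    positivity
  obtain ⟨t, ht, hin, e, he, h0⟩ := exists_exit ha hb hne
  refine ⟨_, _, hin, ⟨e, he, seg_of_tight hin he h0⟩, fun hG => h ?_⟩
  by_contra hn
  unfold G at hG hn
  have e1 : √((b1 - (b1 + t * (a1 - b1))) ^ 2 + (b2 - (b2 + t * (a2 - b2))) ^ 2) =
      t * √((b1 - a1) ^ 2 + (b2 - a2) ^ 2) := by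
    rw [← sqrt_scale (by linarith)]
    congr 1
    ring
  have e2 : √((b1 + t * (a1 - b1) - c1) ^ 2 + (b2 + t * (a2 - b2) - c2) ^ 2) ≤
      t * √((a1 - c1) ^ 2 + (a2 - c2) ^ 2) + (t - 1) * √((c1 - b1) ^ 2 + (c2 - b2) ^ 2) := by
    rw [← sqrt_scale (by linarith), ← sqrt_scale (by linarith)]
    refine le_trans (le_of_eq ?_) (sqrt_tri _ _ _ _)
    congr 1
    ring
  rw [e1] at hG
  have m1 := mul_le_mul_of_nonneg_left e2 hK
  have m2 := mul_lt_mul_of_pos_left (not_le.1 hn) (by linarith : (0 : ℝ) < t)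
  nlinarith

theorem G_all {a1 a2 b1 b2 c1 c2 : ℝ} (ha : InP a1 a2) (hb : InP b1 b2) (hc : InP c1 c2) :
    G 99905536 a1 a2 b1 b2 c1 c2 := by
  by_contra h
  obtain ⟨a1', a2', ha', ⟨e, he, se⟩, h1⟩ := push (by norm_num) ha hb h
  obtain ⟨b1', b2', hb', ⟨f, hf, sf⟩, h2⟩ := push (c1 := a1') (c2 := a2') (by norm_num) hb hc
    fun hG => h1 (G_cyc hG)
  obtain ⟨c1', c2', hc', ⟨g, hg, sg⟩, h3⟩ := push (c1 := b1') (c2 := b2') (by norm_num) hc ha'
    fun hG => h2 (G_cyc hG)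
  have := edges_good hg he hf _ _ _ _ _ _ sg se sf
  exact h3 (by exact_mod_cast this)

/-- The polygon. -/
def poly : Set (EuclideanSpace ℝ (Fin 2)) := {x | InP (409600000 * x 0) (409600000 * x 1)}

theorem triRad_poly : triRad poly ≤ 0.24391 := by
  apply triRad_le (by norm_num)
  intro A hA B hB C hC
  have h := G_all hA hB hC
  unfold G at h
  simp only [← mul_sub] at h
  rw [sqrt_scale (by norm_num), sqrt_scale (by norm_num), sqrt_scale (by norm_num)] at h
  linarith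

theorem poly_bounds {p : EuclideanSpace ℝ (Fin 2)} (hp : p ∈ poly) :
    (-0.4515 ≤ p 0 ∧ p 0 ≤ -0.4515 + 1) ∧ -1 ≤ p 1 ∧ p 1 ≤ 1 := by
  have h := (inP_iff _ _).1 hp
  obtain ⟨h1, h2, h3, h4, h5, h6, h7, h8, h9, h10, h11⟩ := h
  refine ⟨⟨?_, ?_⟩, ?_, ?_⟩ <;> linarith

theorem convex_poly : Convex ℝ poly := by
  intro x hx y hy a b ha hb hab e he
  have h1 := hx e he
  have h2 := hy e he
  have : cr e (409600000 * (a • x + b • y) 0) (409600000 * (a • x + b • y) 1) =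
      a * cr e (409600000 * x 0) (409600000 * x 1) + b * cr e (409600000 * y 0) (409600000 * y 1) := by
    simp only [PiLp.add_apply, PiLp.smul_apply, smul_eq_mul, cr]
    have hb' : b = 1 - a := by linarith
    rw [hb']
    ring
  rw [this]
  positivity

theorem isCompact_poly : IsCompact poly := by
  apply isCompact_of_isClosed_isBounded
  · have : poly = ⋂ e ∈ edges, {x : EuclideanSpace ℝ (Fin 2) | 0 ≤ cr e (409600000 * x 0) (409600000 * x 1)} := by
      ext x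
      simp [poly, InP]
    rw [this]
    refine isClosed_biInter fun e _ => isClosed_le continuous_const ?_
    unfold cr
    fun_prop
  · refine (isBounded_closedBall (x := 0) (r := 2)).subset fun p hp => ?_
    obtain ⟨⟨h1, h2⟩, h3, h4⟩ := poly_bounds hp
    rw [mem_closedBall, dist_two]
    apply Real.sqrt_le_iff.2 ⟨by norm_num, ?_⟩
    simp only [PiLp.zero_apply, sub_zero]
    nlinarith

theorem v0_mem : (!₂[(54850 / 100000 : ℝ), (0 / 100000 : ℝ)] : EuclideanSpace ℝ (Fin 2)) ∈ poly := by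
  refine (inP_iff _ _).2 ?_
  simp only [Matrix.cons_val_zero, Matrix.cons_val_one]
  norm_num

theorem v1_mem : (!₂[(36553 / 100000 : ℝ), (26557 / 100000 : ℝ)] : EuclideanSpace ℝ (Fin 2)) ∈ poly := by
  refine (inP_iff _ _).2 ?_
  simp only [Matrix.cons_val_zero, Matrix.cons_val_one]
  norm_num

theorem v2_mem : (!₂[(16950 / 100000 : ℝ), (52165 / 100000 : ℝ)] : EuclideanSpace ℝ (Fin 2)) ∈ poly := by
  refine (inP_iff _ _).2 ?_
  simp only [Matrix.cons_val_zero, Matrix.cons_val_one]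
  norm_num

theorem v3_mem : (!₂[(-13961 / 100000 : ℝ), (42972 / 100000 : ℝ)] : EuclideanSpace ℝ (Fin 2)) ∈ poly := by
  refine (inP_iff _ _).2 ?_
  simp only [Matrix.cons_val_zero, Matrix.cons_val_one]
  norm_num

theorem v4_mem : (!₂[(-44375 / 100000 : ℝ), (32240 / 100000 : ℝ)] : EuclideanSpace ℝ (Fin 2)) ∈ poly := by
  refine (inP_iff _ _).2 ?_
  simp only [Matrix.cons_val_zero, Matrix.cons_val_one]
  norm_num

theorem v5_mem : (!₂[(-45150 / 100000 : ℝ), (1252 / 100000 : ℝ)] : EuclideanSpace ℝ (Fin 2)) ∈ poly := by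
  refine (inP_iff _ _).2 ?_
  simp only [Matrix.cons_val_zero, Matrix.cons_val_one]
  norm_num

theorem v6_mem : (!₂[(-45150 / 100000 : ℝ), (-1252 / 100000 : ℝ)] : EuclideanSpace ℝ (Fin 2)) ∈ poly := by
  refine (inP_iff _ _).2 ?_
  simp only [Matrix.cons_val_zero, Matrix.cons_val_one]
  norm_num

theorem v7_mem : (!₂[(-44375 / 100000 : ℝ), (-32240 / 100000 : ℝ)] : EuclideanSpace ℝ (Fin 2)) ∈ poly := by
  refine (inP_iff _ _).2 ?_
  simp only [Matrix.cons_val_zero, Matrix.cons_val_one]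
  norm_num

theorem v8_mem : (!₂[(-13961 / 100000 : ℝ), (-42972 / 100000 : ℝ)] : EuclideanSpace ℝ (Fin 2)) ∈ poly := by
  refine (inP_iff _ _).2 ?_
  simp only [Matrix.cons_val_zero, Matrix.cons_val_one]
  norm_num

theorem v9_mem : (!₂[(16950 / 100000 : ℝ), (-52165 / 100000 : ℝ)] : EuclideanSpace ℝ (Fin 2)) ∈ poly := by
  refine (inP_iff _ _).2 ?_
  simp only [Matrix.cons_val_zero, Matrix.cons_val_one]
  norm_num

theorem v10_mem : (!₂[(36553 / 100000 : ℝ), (-26557 / 100000 : ℝ)] : EuclideanSpace ℝ (Fin 2)) ∈ poly := by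
  refine (inP_iff _ _).2 ?_
  simp only [Matrix.cons_val_zero, Matrix.cons_val_one]
  norm_num

theorem upper {x y : ℝ} (hu : x ^ 2 + y ^ 2 = 1) (hy : 0 ≤ y) : ∃ p ∈ poly, ∃ q ∈ poly,
    1 ≤ x * (p 0 - q 0) + y * (p 1 - q 1) := by
  have g0 : 0 ≤ (1 : ℝ) * y - 0 * x := by linarith
  rcases le_total 0 (x * (775 : ℝ) - y * (30988)) with k0 | k0
  · refine ⟨_, v0_mem, _, v6_mem, ?_⟩
    simp only [Matrix.cons_val_zero, Matrix.cons_val_one]
    exact cone_ge hu g0 k0 (by norm_num) (by norm_num) (by norm_num) (by norm_num) (by norm_num)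
  have g1 : 0 ≤ (30988 : ℝ) * y - (775) * x := by linarith
  rcases le_total 0 (x * (18297 : ℝ) - y * (26557)) with k1 | k1
  · refine ⟨_, v0_mem, _, v7_mem, ?_⟩
    simp only [Matrix.cons_val_zero, Matrix.cons_val_one]
    exact cone_ge hu g1 k1 (by norm_num) (by norm_num) (by norm_num) (by norm_num) (by norm_num)
  have g2 : 0 ≤ (26557 : ℝ) * y - (18297) * x := by linarith
  rcases le_total 0 (x * (19603 : ℝ) - y * (25608)) with k2 | k2
  · refine ⟨_, v1_mem, _, v7_mem, ?_⟩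
    simp only [Matrix.cons_val_zero, Matrix.cons_val_one]
    exact cone_ge hu g2 k2 (by norm_num) (by norm_num) (by norm_num) (by norm_num) (by norm_num)
  have g3 : 0 ≤ (25608 : ℝ) * y - (19603) * x := by linarith
  rcases le_total 0 (x * (30414 : ℝ) - y * (10732)) with k3 | k3
  · refine ⟨_, v2_mem, _, v7_mem, ?_⟩
    simp only [Matrix.cons_val_zero, Matrix.cons_val_one]
    exact cone_ge hu g3 k3 (by norm_num) (by norm_num) (by norm_num) (by norm_num) (by norm_num)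
  have g4 : 0 ≤ (10732 : ℝ) * y - (30414) * x := by linarith
  rcases le_total 0 (x * (30911 : ℝ) - y * (9193)) with k4 | k4
  · refine ⟨_, v2_mem, _, v8_mem, ?_⟩
    simp only [Matrix.cons_val_zero, Matrix.cons_val_one]
    exact cone_ge hu g4 k4 (by norm_num) (by norm_num) (by norm_num) (by norm_num) (by norm_num)
  have g5 : 0 ≤ (9193 : ℝ) * y - (30911) * x := by linarith
  rcases le_total 0 (x * (30911 : ℝ) - y * (-9193)) with k5 | k5
  · refine ⟨_, v2_mem, _, v9_mem, ?_⟩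
    simp only [Matrix.cons_val_zero, Matrix.cons_val_one]
    exact cone_ge hu g5 k5 (by norm_num) (by norm_num) (by norm_num) (by norm_num) (by norm_num)
  have g6 : 0 ≤ (-9193 : ℝ) * y - (30911) * x := by linarith
  rcases le_total 0 (x * (30414 : ℝ) - y * (-10732)) with k6 | k6
  · refine ⟨_, v3_mem, _, v9_mem, ?_⟩
    simp only [Matrix.cons_val_zero, Matrix.cons_val_one]
    exact cone_ge hu g6 k6 (by norm_num) (by norm_num) (by norm_num) (by norm_num) (by norm_num)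
  have g7 : 0 ≤ (-10732 : ℝ) * y - (30414) * x := by linarith
  rcases le_total 0 (x * (19603 : ℝ) - y * (-25608)) with k7 | k7
  · refine ⟨_, v4_mem, _, v9_mem, ?_⟩
    simp only [Matrix.cons_val_zero, Matrix.cons_val_one]
    exact cone_ge hu g7 k7 (by norm_num) (by norm_num) (by norm_num) (by norm_num) (by norm_num)
  have g8 : 0 ≤ (-25608 : ℝ) * y - (19603) * x := by linarith
  rcases le_total 0 (x * (18297 : ℝ) - y * (-26557)) with k8 | k8
  · refine ⟨_, v4_mem, _, v10_mem, ?_⟩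
    simp only [Matrix.cons_val_zero, Matrix.cons_val_one]
    exact cone_ge hu g8 k8 (by norm_num) (by norm_num) (by norm_num) (by norm_num) (by norm_num)
  have g9 : 0 ≤ (-26557 : ℝ) * y - (18297) * x := by linarith
  rcases le_total 0 (x * (775 : ℝ) - y * (-30988)) with k9 | k9
  · refine ⟨_, v4_mem, _, v0_mem, ?_⟩
    simp only [Matrix.cons_val_zero, Matrix.cons_val_one]
    exact cone_ge hu g9 k9 (by norm_num) (by norm_num) (by norm_num) (by norm_num) (by norm_num)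
  have g10 : 0 ≤ (-30988 : ℝ) * y - (775) * x := by linarith
  have k10 : 0 ≤ x * (0 : ℝ) - y * (-1) := by linarith
  refine ⟨_, v5_mem, _, v0_mem, ?_⟩
  simp only [Matrix.cons_val_zero, Matrix.cons_val_one]
  exact cone_ge hu g10 k10 (by norm_num) (by norm_num) (by norm_num) (by norm_num) (by norm_num)

theorem width_poly : width poly = 1 := by
  refine width_eq_one isCompact_poly ⟨_, v0_mem⟩ ?_ (-0.4515) fun p hp => (poly_bounds hp).1
  intro x y hu
  rcases le_total 0 y with hy | hy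
  · exact upper hu hy
  · obtain ⟨p, hp, q, hq, h⟩ := upper (x := -x) (y := -y) (by linarith) (by linarith)
    exact ⟨q, hq, p, hp, by linarith⟩

end Pool.Agent.MP_cd4638_co.H97
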