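import Pool.Agent.MP_cd4638_co.H97.Check

/-! The computation for the polygon with eleven vertices. -/

namespace Pool.Agent.MP_cd4638_co.H97

/-- The edges of the polygon, scaled by `409600000`. -/
def edges : List (ℤ × ℤ × ℤ × ℤ) :=
  [(224665600, 0, 149721088, 108777472),
   (149721088, 108777472, 69427200, 213667840),
   (69427200, 213667840, -57184256, 176013312),
   (-57184256, 176013312, -181760000, 132055040),
   (-181760000, 132055040, -184934400, 5128192),
   (-184934400, 5128192, -184934400, -5128192),
   (-184934400, -5128192, -181760000, -132055040),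
   (-181760000, -132055040, -57184256, -176013312),
   (-57184256, -176013312, 69427200, -213667840),
   (69427200, -213667840, 149721088, -108777472),
   (149721088, -108777472, 224665600, 0)]

/-- The check for all triples of edges whose first edge is `e`. -/
def chkFrom (e : ℤ × ℤ × ℤ × ℤ) : Bool :=
  edges.all fun f => edges.all fun g =>
    chk 99905536 65536 30 e.1 e.2.1 e.2.2.1 e.2.2.2 f.1 f.2.1 f.2.2.1 f.2.2.2
      g.1 g.2.1 g.2.2.1 g.2.2.2

theorem all_ok : edges.all chkFrom = true := by decide +kernel

theorem edges_good {e f g : ℤ × ℤ × ℤ × ℤ} (he : e ∈ edges) (hf : f ∈ edges) (hg : g ∈ edges) :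
    Good 99905536 e.1 e.2.1 e.2.2.1 e.2.2.2 f.1 f.2.1 f.2.2.1 f.2.2.2 g.1 g.2.1 g.2.2.1 g.2.2.2 := by
  have h1 := List.all_eq_true.1 all_ok e he
  have h2 := List.all_eq_true.1 (List.all_eq_true.1 h1 f hf) g hg
  exact chk_good (by norm_num) (by norm_num) 30 _ _ _ _ _ _ _ _ _ _ _ _ h2

end Pool.Agent.MP_cd4638_co.H97
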